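import Mathlib

namespace Pool.Agent.Results.MP_c229cb_an.NoSep

open MvPolynomial

set_option maxHeartbeats 400000

theorem aux (P : MvPolynomial (Fin 2) ℂ) (h1 : eval ![1, 0] P = 0)
    (h2 : ∀ a b : ℂ, eval ![a, b] P = 0 → ‖b‖ < a.re) : False := by
  have hQe' : ∀ a b : ℂ, (aeval ![Polynomial.C a, Polynomial.X] P).eval b = eval ![a, b] P := by
    intro a b
    clear h1 h2
    induction P using MvPolynomial.induction_on with
    | C c => simp
    | add p q hp hq => simp [hp, hq]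
    | mul_X p i hp => fin_cases i <;> simp [hp]
  have hRe' : ∀ a b : ℂ, (aeval ![Polynomial.X, Polynomial.C b] P).eval a = eval ![a, b] P := by
    intro a b
    clear h1 h2 hQe'
    induction P using MvPolynomial.induction_on with
    | C c => simp
    | add p q hp hq => simp [hp, hq]
    | mul_X p i hp => fin_cases i <;> simp [hp]
  set Q : ℂ → Polynomial ℂ := fun a => aeval ![Polynomial.C a, Polynomial.X] P with hQ
  set R : ℂ → Polynomial ℂ := fun b => aeval ![Polynomial.X, Polynomial.C b] P with hR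
  have hQe : ∀ a b, (Q a).eval b = eval ![a, b] P := hQe'
  have hRe : ∀ a b, (R b).eval a = eval ![a, b] P := hRe'
  have h3 : ∀ a : ℂ, a.re ≤ 0 → eval ![a, 2] P = eval ![a, 0] P := by
    intro a ha
    have hd : (Q a).degree ≤ 0 := by
      by_contra hd
      push Not at hd
      obtain ⟨b, hb⟩ := Complex.exists_root hd
      have := h2 a b (by rw [← hQe]; exact hb)
      linarith [norm_nonneg b]
    rw [← hQe, ← hQe, Polynomial.eq_C_of_degree_le_zero hd]
    simp
  have h4 : R 2 = R 0 := by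
    refine Polynomial.eq_of_infinite_eval_eq _ _ ?_
    refine Set.infinite_of_injective_forall_mem (f := fun n : ℕ => -(n : ℂ)) ?_ ?_
    · intro a b h; simpa using h
    · intro n
      show (R 2).eval _ = (R 0).eval _
      rw [hRe, hRe, h3 _ (by simp)]
  have h5 := h2 1 2 (by rw [← hRe, h4, hRe, h1])
  norm_num at h5

theorem result : ∃ (K V : Set (EuclideanSpace ℂ (Fin 2))),
    K.Nonempty ∧ IsClosed K ∧ (∀ t : ℝ, 0 < t → ∀ z ∈ K, t • z ∈ K) ∧
    (∃ F : Finset (MvPolynomial (Fin 2) ℂ), V = {z | ∀ p ∈ F, eval (fun i => z i) p = 0}) ∧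
    V.Nonempty ∧ V ≠ Set.univ ∧
    (∃ c > 0, ∀ z ∈ V, c ≤ Metric.infDist z K) ∧
    ∀ P : MvPolynomial (Fin 2) ℂ,
      ¬ (V ⊆ {z | eval (fun i => z i) P = 0} ∧ Disjoint {z | eval (fun i => z i) P = 0} K) := by
  have hcl : IsClosed {z : EuclideanSpace ℂ (Fin 2) | (z 0).re ≤ ‖z 1‖} :=
    isClosed_le (by fun_prop) (by fun_prop)
  have hne : {z : EuclideanSpace ℂ (Fin 2) | (z 0).re ≤ ‖z 1‖}.Nonempty := ⟨0, by simp⟩
  refine ⟨{z | (z 0).re ≤ ‖z 1‖}, {!₂[1, 0]}, hne, hcl, ?_, ⟨{X 0 - 1, X 1}, ?_⟩,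
    Set.singleton_nonempty _, ?_, ⟨Metric.infDist !₂[1, 0] {z : EuclideanSpace ℂ (Fin 2) | (z 0).re ≤ ‖z 1‖}, ?_, ?_⟩, ?_⟩
  · intro t ht z hz
    simp only [Set.mem_ofPred_eq, PiLp.smul_apply, Complex.real_smul, Complex.re_ofReal_mul,
      norm_mul, Complex.norm_real, Real.norm_eq_abs, abs_of_pos ht] at hz ⊢
    exact mul_le_mul_of_nonneg_left hz ht.le
  · ext z
    simp only [Set.mem_singleton_iff, Finset.mem_insert, Finset.mem_singleton, forall_eq_or_imp,
      forall_eq, Set.mem_ofPred_eq, map_sub, eval_X, map_one, sub_eq_zero]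
    constructor
    · rintro rfl; simp
    · rintro ⟨h0, h1⟩
      ext i; fin_cases i <;> simp [h0, h1]
  · intro h
    have : (0 : EuclideanSpace ℂ (Fin 2)) ∈ ({!₂[1, 0]} : Set (EuclideanSpace ℂ (Fin 2))) := by
      rw [h]; trivial
    have := congrArg (fun z : EuclideanSpace ℂ (Fin 2) => z 0) (Set.mem_singleton_iff.1 this)
    simp at this
  · exact (hcl.notMem_iff_infDist_pos hne).1 (by simp)
  · rintro z rfl; exact le_rfl
  · rintro P ⟨h1, h2⟩
    have e : ∀ a b : ℂ, (fun i => (!₂[a, b] : EuclideanSpace ℂ (Fin 2)) i) = ![a, b] := by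
      intro a b; ext i; fin_cases i <;> simp
    have h3 := h1 (Set.mem_singleton _)
    rw [Set.mem_ofPred_eq, e] at h3
    refine aux P h3 fun a b hab => ?_
    by_contra h
    push Not at h
    have h4 := Set.disjoint_left.1 h2
    refine @h4 (!₂[a, b] : EuclideanSpace ℂ (Fin 2)) ?_ ?_
    · rw [Set.mem_ofPred_eq, e]; exact hab
    · simpa using h

end Pool.Agent.Results.MP_c229cb_an.NoSep
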